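import Pool.Agent.Lib.SE.CC.Spec
import Pool.Agent.Lib.SE.CC.Low

/-!
# Module Gd: the class of the factors `G`
-/

set_option autoImplicit false

open Module

noncomputable section

namespace HC.CC

open HC.SE (New IsPic)

theorem tGd : S_New → S_Pic → S_Cm → S_Sp → S_Is → S_Gd := by
  intro hNew hPic hCm hSp hIs p s T hT
  by_cases h2 : finrank ℂ T.V ≤ 2
  · exact Or.inl (Or.inl (Or.inl h2))
  rcases hT with h | hR | hS | ⟨m, Z, hP⟩ | ⟨m, Z, r, i, k, b, hi, hk, hc, hN⟩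
  · exact Or.inl (Or.inl (isLow_low hIs h))
  · obtain ⟨F, i1, i2, i3, ι, h1, h3⟩ := hR
    exact Or.inl (Or.inr (Or.inl
      ⟨F, i1, i2, i3, ι, h1, fun x v hv => h3 x v ⟨1, one_ne_zero, by rwa [one_smul]⟩⟩))
  · obtain ⟨E', h1, h3⟩ := hSp T hS
    exact Or.inl (Or.inr (Or.inr (Or.inl ⟨by omega, E', h1, h3⟩)))
  · obtain ⟨Z', h1, h3⟩ := hPic T m Z hP.1
    exact Or.inl (Or.inr (Or.inr (Or.inr ⟨m, Z', h3, hP.2.1, hCm T Z Z' h1 hP.2.2⟩)))
  · rcases Nat.lt_or_ge m 3 with hm | hm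
    · obtain rfl : m = 2 := by
        have := hc.1
        omega
      have hodd := hc.2.2.1
      have hsum : ¬ 2 ∣ ∑ j, b j := hc.2.2.2.1
      have hr : Even r := by
        have h3 : (∑ j, b j) % 2 = (r + 1) % 2 := by
          rw [Finset.sum_nat_mod]
          have h4 : ∀ j, b j % 2 = 1 := fun j => by
            have := hodd j
            omega
          simp [h4]
        rw [Nat.even_iff]
        omega
      obtain ⟨D, -⟩ := hNew T 2 Z r _ _ (isNew_two hodd hN)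
      rw [pt_eq] at D
      refine Or.inr ⟨2, r, fun _ => 1, i, k, ⟨hi, hk⟩, D, Or.inr ⟨rfl, fun _ => rfl, hr, ?_⟩⟩
      have h3 := hN.dim
      rw [Nat.totient_two, mul_one] at h3
      obtain ⟨t, rfl⟩ := hr
      omega
    · obtain ⟨D, -⟩ := hNew T m Z r _ b hN
      rw [pt_eq] at D hc
      exact Or.inr ⟨m, r, b, i, k, ⟨hi, hk⟩, D, Or.inl ⟨hm, hc.2⟩⟩

end HC.CC
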