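import Pool.Agent.Lib.SE.CC.Spec

/-!
# PROJECT SE-CC, module Hdg: Hodge classes (helper87)
-/

set_option autoImplicit false

open Module

noncomputable section

namespace HC.CC

/-- **S_Hdg**: Hodge classes. -/
theorem tHdg : S_Hdg := by
  intro T m c hc
  obtain ⟨h1, h2⟩ := hc
  refine ⟨fun a ha => h1 a (fun i v hv => ha i v hv), fun u hu => ?_⟩
  refine AlternatingMap.ext fun a => ?_
  exact h2 u hu a (fun i => HC.pull (u • LinearMap.id) (a i)) (fun i v => rfl)

end HC.CC
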