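import Pool.Agent.Lib.SE.CC.Spec

/-!
# PROJECT SE-CC, module Is: isogenies (helper87)
-/

set_option autoImplicit false

open Module

noncomputable section

namespace HC.CC

/-- **S_Is**: isogenies. -/
theorem tIs : S_Is := by
  intro T A n G f g h
  obtain ⟨hf, hg, hb, hr⟩ := h
  let F : T.V →ₗ[ℂ] A.V × (∀ i, (G i).V) :=
    { toFun := fun v => (f v, fun i => g i v)
      map_add' := fun u v => Prod.ext (hf.map_add u v) (funext fun i => (hg i).map_add u v)
      map_smul' := fun c v => Prod.ext (hf.map_smul c v) (funext fun i => (hg i).map_smul c v) }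
  refine ⟨LinearEquiv.ofBijective F hb, fun v => ⟨rfl, fun i => rfl⟩, fun v hv => ?_⟩
  obtain ⟨⟨k₀, hk₀, h₀⟩, h₁⟩ := hr v ⟨1, one_ne_zero, by rw [one_smul]; exact hv⟩
  choose k hk hkL using h₁
  have hprod : ∏ i, k i ≠ 0 := Finset.prod_ne_zero_iff.2 fun i _ => hk i
  refine ⟨k₀ * ∏ i, k i, mul_ne_zero hk₀ hprod, ?_, fun i => ?_⟩
  · change (k₀ * ∏ i, k i) • f v ∈ A.L
    rw [mul_comm, mul_smul]
    exact A.L.toAddSubgroup.nsmul_mem h₀ _
  · change (k₀ * ∏ i, k i) • g i v ∈ (G i).L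
    have h2 : k₀ * ∏ i, k i = (k₀ * ∏ j ∈ Finset.univ.erase i, k j) * k i := by
      rw [mul_assoc, Finset.prod_erase_mul Finset.univ k (Finset.mem_univ i)]
    rw [h2, mul_smul]
    exact (G i).L.toAddSubgroup.nsmul_mem (hkL i) _

end HC.CC
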