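import Pool.Agent.Lib.SE.CC.Spec

/-!
# SE-St: S_New (the new part of a Jacobian, bundled)
-/

set_option autoImplicit false

noncomputable section

namespace HC.CC

open HC.SE (Crv)

theorem tNew : S_Cy → S_Cur → S_New := by
  intro hCy hCur T m Z r s b h
  obtain ⟨hcyc, hdim, γ, hP, hS, hequ, hdif⟩ := h
  obtain ⟨Z', hZ, hlat, haev⟩ := hCy T m Z hcyc
  obtain ⟨γ', hP', hS', hω'⟩ := hCur.1 T γ
  refine ⟨⟨Z', γ', hlat, haev, hdim, ?_, ?_, ?_, ?_⟩, hZ⟩
  · intro x y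
    rw [hP']
    exact hP x y
  · rw [hS']
    exact hS
  · intro x hx y hxy
    rw [hS'] at hx
    rw [hP'] at hxy
    rw [hω', hZ]
    exact hequ x hx y hxy
  · intro u hu hum i hi
    obtain ⟨B, hB, hB'⟩ := hdif u hu hum i hi
    refine ⟨hB.mk' B, ?_⟩
    intro x hx y hxy
    rw [hS'] at hx
    rw [hP'] at hxy
    rw [hω', IsLinearMap.mk'_apply]
    exact hB' x hx y hxy

end HC.CC
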