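import Pool.Agent.Lib.SE.CC.Spec

/-!
# PROJECT SE-CC: module Pic

The factors of Picard type: the eigenspace of the value `z` is the span of the vector `e`.
-/

set_option autoImplicit false

open Module

noncomputable section

namespace HC.CC

open HC.SE (IsPic)

theorem tPic : S_Cy → S_Pic := by
  intro hCy T m Z h
  obtain ⟨Z', hZ, hL, hcyc⟩ := hCy T m Z h.cyc
  refine ⟨Z', hZ, ⟨h.dim, hL, hcyc, ?_⟩⟩
  obtain ⟨z, e, he, hze⟩ := h.one
  refine ⟨z, ?_⟩
  have hmem : ∀ v : T.V, v ∈ Module.End.eigenspace Z' z ↔ ∃ x : ℂ, v = x • e := fun v => by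
    rw [Module.End.mem_eigenspace_iff, hZ v]
    exact hze v
  have he1 : e ∈ Module.End.eigenspace Z' z := (hmem e).2 ⟨1, (one_smul ℂ e).symm⟩
  refine finrank_eq_one (⟨e, he1⟩ : Module.End.eigenspace Z' z) ?_ ?_
  · intro h0
    exact he (congrArg Subtype.val h0)
  · rintro ⟨w, hw⟩
    obtain ⟨x, hx⟩ := (hmem w).1 hw
    exact ⟨x, Subtype.ext hx.symm⟩

end HC.CC
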