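import Pool.Agent.Lib.SE.CC.Spec

/-!
# PROJECT SE-CC, module Sp: the Hodge group is the symplectic group
-/

set_option autoImplicit false

open Module

noncomputable section

namespace HC.CC

namespace Sp_aux

variable {T : AV}

/-- The functions of the elements of `h`. -/
def Fn (h : Set (Module.End ℝ T.V)) : Set (T.V → T.V) :=
  {X | ∃ X' ∈ h, ∀ v, X v = X' v}

theorem mu_real (x : ℝ) (v : T.V) : mu (T := T) (x : ℂ) v = x • v := by
  simp only [mu]
  exact Complex.coe_smul x v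

theorem mu_rat (x : ℚ) (v : T.V) : mu (T := T) (x : ℂ) v = (x : ℝ) • v := by
  rw [← mu_real]
  simp

theorem cmb_of_span (h : Set (Module.End ℝ T.V)) (X : Module.End ℝ T.V)
    (hX : X ∈ Submodule.span ℝ h) : Cmb (T := T) (Fn h) (fun v => X v) := by
  rw [Submodule.mem_span_set'] at hX
  obtain ⟨n, f, g, hg⟩ := hX
  refine ⟨n, f, fun i v => (g i : Module.End ℝ T.V) v, fun i => ⟨g i, (g i).2, fun v => rfl⟩, ?_⟩
  intro v
  rw [← hg]
  simp only [LinearMap.sum_apply, LinearMap.smul_apply, mu_real]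

theorem span_of_cmb (h : Set (Module.End ℝ T.V)) (X : Module.End ℝ T.V)
    (hX : Cmb (T := T) {Y | ∃ P ∈ Fn h, ∃ Q ∈ Fn h, ∀ v, Y v = P (Q v) - Q (P v)}
      (fun v => X v)) : X ∈ Submodule.span ℝ (SEB.Com h) := by
  obtain ⟨n, x, Y, hY, hX⟩ := hX
  choose P hP Q hQ hPQ using hY
  choose P' hP' hPe using hP
  choose Q' hQ' hQe using hQ
  have : X = ∑ i, x i • (P' i * Q' i - Q' i * P' i) := by
    refine LinearMap.ext fun v => ?_
    refine (hX v).trans ?_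
    simp only [LinearMap.sum_apply, LinearMap.smul_apply, LinearMap.sub_apply, Module.End.mul_apply,
      mu_real]
    refine Finset.sum_congr rfl fun i _ => ?_
    rw [hPQ i v, hPe, hQe, hPe, hQe]
  rw [this]
  refine Submodule.sum_mem _ fun i _ => Submodule.smul_mem _ _ (Submodule.subset_span ?_)
  exact ⟨P' i, hP' i, Q' i, hQ' i, rfl⟩

theorem rt_of_rat {X : Module.End ℝ T.V} (hX : RatEnd T X) (v : T.V) (hv : Rt T v) :
    Rt T (X v) := by
  obtain ⟨k, hk, hkv⟩ := hv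
  obtain ⟨N, hN, hNv⟩ := hX _ hkv
  refine ⟨N * k, Nat.mul_ne_zero hN hk, ?_⟩
  rw [map_nsmul, ← mul_nsmul'] at hNv
  exact hNv

end Sp_aux

open Sp_aux

theorem tSp : S_Pl → S_Sp := by
  intro hPl T hT
  obtain ⟨E, hE, hh⟩ := hT
  obtain ⟨E', hEE, hP⟩ := hPl T (fun v => v) 1 E (fun v => rfl) hE
  refine ⟨E', ⟨hP.1, hP.2.1, hP.2.2.1, hP.2.2.2.1⟩, ?_⟩
  intro h' hh' X' hX'
  apply span_of_cmb
  apply hh (Fn h')
  · refine ⟨?_, ?_, ?_, ?_, ?_⟩
    · rintro X ⟨Y, hY, hXY⟩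
      have hXe : X = fun v => Y v := funext hXY
      subst hXe
      refine ⟨⟨⟨fun u v => map_add Y u v, fun c v => map_smul Y c v⟩, fun u v => ?_⟩,
        fun v hv => rt_of_rat (hh'.rat Y hY) v hv⟩
      have := hh'.sk Y hY u v
      rw [hEE, hEE] at this
      exact this
    · rintro X ⟨X₁, hX₁, hX⟩ Y ⟨Y₁, hY₁, hY⟩
      refine ⟨X₁ + Y₁, hh'.lie.add X₁ hX₁ Y₁ hY₁, fun v => ?_⟩
      simp only [hX, hY, LinearMap.add_apply]
    · rintro x X ⟨X₁, hX₁, hX⟩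
      refine ⟨(x : ℝ) • X₁, hh'.lie.smul x X₁ hX₁, fun v => ?_⟩
      simp only [hX, LinearMap.smul_apply, mu_rat]
    · rintro X ⟨X₁, hX₁, hX⟩ Y ⟨Y₁, hY₁, hY⟩
      refine ⟨X₁ * Y₁ - Y₁ * X₁, hh'.lie.br X₁ hX₁ Y₁ hY₁, fun v => ?_⟩
      simp only [hX, hY, LinearMap.sub_apply, Module.End.mul_apply]
    · exact cmb_of_span h' _ hh'.J
  · refine ⟨⟨fun u v => map_add X' u v, fun c v => map_smul X' c v⟩, fun u v => ?_⟩
    have := hX' u v
    rw [hEE, hEE] at this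
    exact this

end HC.CC
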