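import Pool.Agent.Lib.SE.CC.Cur
import Pool.Agent.Lib.SE.CC.Alg
import Pool.Agent.Lib.SE.CC.Cy
import Pool.Agent.Lib.SE.CC.New
import Pool.Agent.Lib.SE.CC.Pic
import Pool.Agent.Lib.SE.CC.Cm
import Pool.Agent.Lib.SE.CC.Sp
import Pool.Agent.Lib.SE.CC.Gd
import Pool.Agent.Lib.SE.CC.Is
import Pool.Agent.Lib.SE.CC.Pl
import Pool.Agent.Lib.SE.CC.Hdg
import Pool.Agent.Lib.SE.CC.Su
import Pool.Agent.Lib.SE.CC.Mn

/-!
# PROJECT SE-CC: the theorem, from the internal form `SEN.FinN`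
-/

set_option autoImplicit false

noncomputable section

namespace HC.CC

theorem sNew : S_New := tNew tCy tCur

theorem sPic : S_Pic := tPic tCy

/-- **THE THEOREM**, from the internal form. -/
theorem main_of (h : SEN.FinN) : Main :=
  tMn (tAlg tCur) sNew sPic (tGd sNew sPic tCm (tSp tPl) tIs) tIs tPl tHdg tSu h

end HC.CC
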