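import Pool.Agent.Lib.HC.Defs

/-!
# The statement of the final theorem in elementary terms

`T : AV` is the abelian variety `T.V / T.L` (HC/Defs.lean). Maps between tangent spaces are plain
functions with the property `IsC` (complex linear) or `IsR` (real linear).

* `Hlg T m`: the homology group `H_m(T, ℂ)`; `itg c a` is the integral of `a_1 ∧ … ∧ a_m` over `c`.
* `IsHdg c`: `c` is rational and of type `(m/2, m/2)`.
* `AlgC T m c`: `c` is a `ℂ`-linear combination of classes of algebraic cycles.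
* `IsNew`: `T` is isogenous to the new part of the Jacobian of `y ^ m = ∏_j (x - s_j) ^ b_j`.
* `IsPc`: multiplication by `ℚ(√-3)` or `ℚ(i)` with signature `(n - 1, 1)`.
-/

set_option autoImplicit false

open MeasureTheory Topology

noncomputable section

namespace HC.CC

/-! ## Abelian varieties -/

/-- The real linear maps `T.V → ℂ` (translation invariant 1-forms with complex values). -/
abbrev F1 (T : AV) : Type := T.V →ₗ[ℝ] ℂ

/-- The value of a 1-form at a tangent vector. -/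
def ev {T : AV} (a : F1 T) (v : T.V) : ℂ := a v

/-- The integral of `a_1 ∧ … ∧ a_m` over the homology class `c`. -/
def itg {T : AV} {m : ℕ} (c : Hlg T m) (a : Fin m → F1 T) : ℂ := c a

/-- `v` is in the lattice. -/
def In (T : AV) (v : T.V) : Prop := v ∈ T.L

/-- `v` is in the rational lattice `L ⊗ ℚ`. -/
def Rt (T : AV) (v : T.V) : Prop := ∃ k : ℕ, k ≠ 0 ∧ k • v ∈ T.L

/-- `f` is complex linear. -/
def IsC {T T' : AV} (f : T.V → T'.V) : Prop := IsLinearMap ℂ f

/-- `f` is real linear. -/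
def IsR {T T' : AV} (f : T.V → T'.V) : Prop := IsLinearMap ℝ f

/-- The multiplication by a complex number. -/
def mu {T : AV} (z : ℂ) (v : T.V) : T.V := z • v

/-- `(f, g_1, …, g_n)` is an isogeny from `T` to `A × G_1 × … × G_n`, up to an integer. -/
structure IsIs {T A : AV} {n : ℕ} {G : Fin n → AV} (f : T.V → A.V) (g : ∀ i, T.V → (G i).V) :
    Prop where
  fst : IsC f
  snd : ∀ i, IsC (g i)
  bij : Function.Bijective fun v => (f v, fun i => g i v)
  rat : ∀ v, Rt T v → Rt A (f v) ∧ ∀ i, Rt (G i) (g i v)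

/-- `c` is a Hodge class: it has rational values on the rational 1-forms, and it is of type
`(m/2, m/2)` (invariant under the multiplications by the complex numbers of absolute value 1). -/
def IsHdg {T : AV} {m : ℕ} (c : Hlg T m) : Prop :=
  (∀ a : Fin m → F1 T, (∀ i v, In T v → ∃ x : ℚ, ev (a i) v = x) → ∃ x : ℚ, itg c a = x) ∧
  ∀ u : ℂ, ‖u‖ = 1 → ∀ a a' : Fin m → F1 T, (∀ i v, ev (a' i) v = ev (a i) (mu u v)) →
    itg c a' = itg c a

/-! ## Algebraic classes -/

/-- The alternating form `∑_j p_j ∧ q_j`. -/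
def wd {T : AV} {r : ℕ} (p q : Fin r → F1 T) (u v : T.V) : ℂ :=
  ∑ j, (ev (p j) u * ev (q j) v - ev (p j) v * ev (q j) u)

/-- `∑_j p_j ∧ q_j` is the first Chern class of a (rational) divisor: it has rational values on
the lattice and is of type `(1,1)` (Lefschetz). -/
def IsDv {T : AV} {r : ℕ} (p q : Fin r → F1 T) : Prop :=
  (∀ u v, In T u → In T v → ∃ x : ℚ, wd p q u v = x) ∧
  ∀ u v, wd p q (mu Complex.I u) (mu Complex.I v) = wd p q u v

/-- `f` is a polynomial function on the complex vector space `E`. -/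
def IsPoly {E : Type} [AddCommGroup E] [Module ℂ E] (f : E → ℂ) : Prop :=
  f ∈ Algebra.adjoin ℂ (Set.range fun (l : E →ₗ[ℂ] ℂ) (v : E) => l v)

/-- The affine plane curve `P (x, y) = 0`, étale over the line outside the finite set `S`, with a
holomorphic map to `T = V / L` given outside `S`: at the point `(x, y)` its value is `α x y` modulo
`L` and its derivative with respect to `x` is `ω x y`. It has finite area, so it extends to the
compact smooth curve (a square integrable holomorphic differential has no pole). -/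
structure Cur (T : AV) where
  P : ℂ × ℂ → ℂ
  S : Set ℂ
  α : ℂ → ℂ → T.V
  ω : ℂ → ℂ → T.V
  poly : IsPoly P
  fin : S.Finite
  et : ∀ x ∉ S, ∀ y, P (x, y) = 0 → deriv (fun y => P (x, y)) y ≠ 0
  map : ∀ x₀ ∉ S, ∀ y₀, P (x₀, y₀) = 0 → ∃ (η : ℂ → ℂ) (g : ℂ → T.V),
    η x₀ = y₀ ∧ ContinuousAt η x₀ ∧ ∀ᶠ x in 𝓝 x₀,
      P (x, η x) = 0 ∧ In T (α x (η x) - g x) ∧ HasDerivAt g (ω x (η x)) x
  area : Integrable fun x => ∑ᶠ y ∈ {y | P (x, y) = 0}, ‖ω x y‖ ^ 2

/-- The homology classes of algebraic cycles, with complex coefficients. -/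
inductive AlgC : (T : AV) → (m : ℕ) → Hlg T m → Prop
  /-- the image of a compact complex manifold `D / Γ` under a holomorphic map
  `D / Γ → V / L`: `c (a₁, …, a_2k) = ∫_{D/Γ} w^*(a₁ ∧ … ∧ a_2k)` -/
  | geo {T : AV} {k : ℕ} (M : CMan k) (w : (Fin k → ℂ) → T.V) (hw : IsMap M T w)
      (χ : (Fin k → ℂ) → ℝ) (hχ : IsWeight M χ) (c : Hlg T (2 * k))
      (hc : ∀ a : Fin (2 * k) → F1 T, itg c a = ∫ z, (χ z : ℂ) *
        Matrix.det (Matrix.of fun i j => ev (a i) (fderiv ℂ w z (frame k j)))) :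
      AlgC T (2 * k) c
  /-- the image of an algebraic set `X` of dimension `r`: the points of `X` over the point `z` of the
  open set `g ≠ 0` of `ℂ^r` are the points `(x_j(z), y_j)_j` of a product of curves, `x_j` rational
  functions, which satisfy the polynomial equations `F`; the map to `T` is the sum of the maps of
  the curves to abelian varieties `T' j` followed by homomorphisms `T' j → T`; `c (a₁, …, a_2r)` is
  the integral of the pull back of `a₁ ∧ … ∧ a_2r` over `X` -/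
  | fam {T : AV} {r N : ℕ} {T' : Fin N → AV} (γ : ∀ j, Cur (T' j))
      (φ : ∀ j, (T' j).V → T.V) (hφ : ∀ j, IsC (φ j)) (hφL : ∀ j v, In (T' j) v → In T (φ j v))
      (g : (Fin r → ℂ) → ℂ) (hg : IsPoly g) (hg0 : ∃ z, g z ≠ 0) (x : Fin N → (Fin r → ℂ) → ℂ)
      (hx : ∀ j, ∃ p q : (Fin r → ℂ) → ℂ, IsPoly p ∧ IsPoly q ∧
        ∀ z, g z ≠ 0 → q z ≠ 0 ∧ x j z = p z / q z)
      (hS : ∀ j z, g z ≠ 0 → x j z ∉ (γ j).S)
      (F : Set ((Fin r → ℂ) × (Fin N → ℂ) → ℂ)) (hF : ∀ f ∈ F, IsPoly f) (c : Hlg T (2 * r))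
      (hc : ∀ a : Fin (2 * r) → F1 T, itg c a = ∫ z in {z | g z ≠ 0},
        ∑ᶠ y ∈ {y : Fin N → ℂ | (∀ j, (γ j).P (x j z, y j) = 0) ∧ ∀ f ∈ F, f (z, y) = 0},
          Matrix.det (Matrix.of fun i l => ev (a i)
            (∑ j, mu (fderiv ℂ (x j) z (frame r l)) (φ j ((γ j).ω (x j z) (y j)))))) :
      AlgC T (2 * r) c
  /-- the image under a homomorphism of abelian varieties -/
  | push {T T' : AV} {m : ℕ} (φ : T.V → T'.V) (hφ : IsC φ) (hφL : ∀ v, In T v → In T' (φ v))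
      {c : Hlg T m} (hc : AlgC T m c) (c' : Hlg T' m)
      (h : ∀ (a : Fin m → F1 T) (a' : Fin m → F1 T'), (∀ i v, ev (a i) v = ev (a' i) (φ v)) →
        itg c' a' = itg c a) : AlgC T' m c'
  /-- the Pontryagin product -/
  | pont {T : AV} {m n : ℕ} {c : Hlg T m} {d : Hlg T n} (hc : AlgC T m c) (hd : AlgC T n d) :
      AlgC T (m + n) (pont c d)
  /-- the intersection (cap product) with a divisor -/
  | cap {T : AV} {m r : ℕ} (p q : Fin r → F1 T) (h : IsDv p q) {c : Hlg T (m + 2)}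
      (hc : AlgC T (m + 2) c) (c' : Hlg T m) (hc' : ∀ a : Fin m → F1 T,
        itg c' a = ∑ j, itg c (Matrix.vecCons (p j) (Matrix.vecCons (q j) a))) : AlgC T m c'
  /-- linear combinations -/
  | lin {T : AV} {m n : ℕ} (x : Fin n → ℂ) (c : Fin n → Hlg T m) (hc : ∀ i, AlgC T m (c i))
      (c' : Hlg T m) (h : ∀ a : Fin m → F1 T, itg c' a = ∑ i, x i * itg (c i) a) : AlgC T m c'

/-! ## The factors -/

/-- The curve `y ^ m = ∏_j (x - s_j) ^ b_j`, `m ≥ 2`, is irreducible and branched at the points `s_j` and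
at infinity (every connected cyclic covering of degree `m` of the projective line is of this form if
the coordinate `x` is chosen such that `∞` is a branch point). -/
def IsCv (m : ℕ) {r : ℕ} (s : Fin (r + 1) → ℂ) (b : Fin (r + 1) → ℕ) : Prop :=
  2 ≤ m ∧ Function.Injective s ∧ (∀ j, ¬ m ∣ b j) ∧ ¬ m ∣ ∑ j, b j ∧
    ∀ d, d ∣ m → (∀ j, d ∣ b j) → d = 1

/-- `Z` is an automorphism of `T` with `Φ_m(Z) = 0`, `Φ_m` the cyclotomic polynomial. -/
def IsCy (T : AV) (m : ℕ) (Z : T.V → T.V) : Prop :=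
  IsC Z ∧ (∀ v, In T v → In T (Z v)) ∧
    ∀ v, ∑ k ∈ Finset.range (m + 1), mu ((Polynomial.cyclotomic m ℤ).coeff k) (Z^[k] v) = 0

/-- `T` is isogenous to the new part of the Jacobian of the curve `y ^ m = ∏_j (x - s_j) ^ b_j`,
`j = 0, …, r`: `Z` is an automorphism of `T` with minimal polynomial the cyclotomic polynomial `Φ_m`,
`2 dim T = r φ(m)`, there is a map from the curve to `T`, compatible with
`(x, y) ↦ (x, exp (2 π i / m) y)` and `Z`, and the differentials of the first kind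
`x ^ i y ^ u dx / ∏_j (x - s_j) ^ (1 + [u b_j / m])`, `(u, m) = 1`, `m i + ∑_j (u b_j mod m) < m r`, of the
curve are induced by differentials of `T`. -/
structure IsNew (T : AV) (m : ℕ) (Z : T.V → T.V) {r : ℕ} (s : Fin (r + 1) → ℂ)
    (b : Fin (r + 1) → ℕ) : Prop where
  cyc : IsCy T m Z
  dim : 2 * Module.finrank ℂ T.V = r * m.totient
  map : ∃ γ : Cur T, (∀ x y, γ.P (x, y) = y ^ m - ∏ j, (x - s j) ^ b j) ∧ γ.S = Set.range s ∧
    (∀ x ∉ γ.S, ∀ y, γ.P (x, y) = 0 →
      γ.ω x (Complex.exp (2 * Real.pi * Complex.I / m) * y) = Z (γ.ω x y)) ∧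
    ∀ u < m, u.Coprime m → ∀ i, m * i + ∑ j, (u * b j) % m < m * r →
      ∃ B : T.V → ℂ, IsLinearMap ℂ B ∧ ∀ x ∉ γ.S, ∀ y, γ.P (x, y) = 0 →
        B (γ.ω x y) = x ^ i * y ^ u / ∏ j, (x - s j) ^ (1 + u * b j / m)

/-- `T` is an abelian variety of dimension `n ≤ 9` with an automorphism `Z` with `Z² + Z + 1 = 0`, or
of dimension `n ≤ 5` with an automorphism `Z` with `Z² + 1 = 0`, and one of the two eigenspaces of `Z`
has dimension one: `T` has multiplication by `ℚ(√-3)` or by `ℚ(i)`, of signature `(n - 1, 1)`. -/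
structure IsPc (T : AV) (m : ℕ) (Z : T.V → T.V) : Prop where
  dim : m = 3 ∧ Module.finrank ℂ T.V ≤ 9 ∨ m = 4 ∧ Module.finrank ℂ T.V ≤ 5
  cyc : IsCy T m Z
  one : ∃ (z : ℂ) (e : T.V), e ≠ 0 ∧ ∀ v, Z v = mu z v ↔ ∃ x : ℂ, v = mu x e

/-- The factors `J`: of Picard type, or the new part of the Jacobian of a cyclic covering of degree
`m ≥ 3` (with any branch points). -/
def IsFc (T : AV) (Z : T.V → T.V) : Prop :=
  ∃ m : ℕ, IsPc T m Z ∨ ∃ (r : ℕ) (s : Fin (r + 1) → ℂ) (b : Fin (r + 1) → ℕ), 3 ≤ m ∧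
    IsCv m s b ∧ IsNew T m Z s b

/-- Only the elements of `ℚ(Z)` commute with `Z`. -/
def Cmt (T : AV) (Z : T.V → T.V) : Prop :=
  ∀ X : T.V → T.V, IsC X → (∀ v, Rt T v → Rt T (X v)) → (∀ v, X (Z v) = Z (X v)) →
    ∃ (n : ℕ) (x : ℕ → ℚ), ∀ v, X v = ∑ k ∈ Finset.range n, mu (x k) (Z^[k] v)

/-- Real multiplication by a totally real field of degree `dim T` (for example every elliptic
curve). -/
def IsRl (T : AV) : Prop :=
  ∃ (F : Type) (_ : Field F) (_ : NumberField F) (_ : NumberField.IsTotallyReal F)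
    (ι : F →+* Module.End ℂ T.V), Module.finrank ℚ F = Module.finrank ℂ T.V ∧
    ∀ x v, Rt T v → Rt T (ι x v)

/-- `E` is a Riemann form of `T` with `E (Z u) (Z v) = E u v`. -/
def IsPl (T : AV) (Z : T.V → T.V) (E : T.V → T.V → ℝ) : Prop :=
  (∀ u, IsLinearMap ℝ (E u)) ∧ (∀ u v, In T u → In T v → ∃ n : ℤ, E u v = n) ∧
    (∀ u v, E u v = -E v u) ∧ (∀ u v, E (mu Complex.I u) (mu Complex.I v) = E u v) ∧
    (∀ v, v ≠ 0 → 0 < E (mu Complex.I v) v) ∧ ∀ u v, E (Z u) (Z v) = E u v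

/-- `X` is a real linear combination of elements of `h`. -/
def Cmb {T : AV} (h : Set (T.V → T.V)) (X : T.V → T.V) : Prop :=
  ∃ (n : ℕ) (x : Fin n → ℝ) (Y : Fin n → T.V → T.V), (∀ i, Y i ∈ h) ∧
    ∀ v, X v = ∑ i, mu (x i) (Y i v)

/-- `X` is real linear and skew for `E`. -/
def IsSk {T : AV} (E : T.V → T.V → ℝ) (X : T.V → T.V) : Prop :=
  IsR X ∧ ∀ u v, E (X u) v + E u (X v) = 0

/-- `h` is a Lie algebra over `ℚ` of endomorphisms of the rational lattice, skew for `E`, with `i` in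
its real span (so it contains the Lie algebra of the Hodge group). -/
structure IsHL (T : AV) (E : T.V → T.V → ℝ) (h : Set (T.V → T.V)) : Prop where
  sk : ∀ X ∈ h, IsSk E X ∧ ∀ v, Rt T v → Rt T (X v)
  add : ∀ X ∈ h, ∀ Y ∈ h, (fun v => X v + Y v) ∈ h
  smul : ∀ x : ℚ, ∀ X ∈ h, (fun v => mu x (X v)) ∈ h
  br : ∀ X ∈ h, ∀ Y ∈ h, (fun v => X (Y v) - Y (X v)) ∈ h
  I : Cmb h (mu Complex.I)

/-- The Hodge group of `T` is the symplectic group: for a Riemann form `E` every skew real linear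
map is a real combination of commutators of elements of the Lie algebras `h`. -/
def IsSp (T : AV) : Prop :=
  ∃ E, IsPl T (fun v => v) E ∧ ∀ h, IsHL T E h → ∀ X, IsSk E X →
    Cmb {Y | ∃ P ∈ h, ∃ Q ∈ h, ∀ v, Y v = P (Q v) - Q (P v)} X

/-- `T` has dimension at most `2`, or it has dimension `3` and is isogenous to a product of two abelian
varieties of positive dimension, or it has dimension `3` and the only imaginary quadratic fields which
act on it are `ℚ(i)` and `ℚ(√-3)`. -/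
def IsLow (T : AV) : Prop :=
  Module.finrank ℂ T.V ≤ 2 ∨ (Module.finrank ℂ T.V = 3 ∧
    ((∃ (T₁ T₂ : AV) (f : T.V → T₁.V) (g : Fin 1 → T.V → T₂.V), 0 < Module.finrank ℂ T₁.V ∧
      0 < Module.finrank ℂ T₂.V ∧ IsIs f g) ∨
    ∀ (Z : T.V → T.V) (c : ℚ), IsC Z → (∀ v, Rt T v → Rt T (Z v)) → 0 < c →
      (∀ v, Z (Z v) = mu (-c) v) → ∃ d : ℚ, c = d ^ 2 ∨ c = 3 * d ^ 2))

/-- The points `s_(i j)` of the projective line in the coordinate `x` (`k = none`) or
`1 / (x - s_k)` (in which `s_k` is the point at infinity). -/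
def pt {p r : ℕ} (s : Fin p → ℂ) (i : Fin (r + 1) → Fin p) : Option (Fin p) → Fin (r + 1) → ℂ
  | none => fun j => s (i j)
  | some k => fun j => (s (i j) - s k)⁻¹

/-- The factors `G`, for points `s_1, …, s_p` of the complex plane: (1) `IsLow` (`dim T ≤ 3`, with a
condition if `dim T = 3`); (2) real multiplication by a totally real field of degree `dim T`; (3) the
Hodge group is the symplectic group; (4) of Picard type, `dim T ≥ 3`, and only the elements of `ℚ(Z)`
commute with `Z`; (5) the new part of the Jacobian of ANY cyclic covering of the projective line whose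
branch set `S` is contained in `{∞, s_1, …, s_p}`: a coordinate is chosen such that a point of `S` is at
infinity, `S = {∞, s_(i 0), …, s_(i r)}` or `S = {s_k, s_(i 0), …, s_(i r)}`, `k` larger than all `i j`, and
the covering is `y ^ m = ∏_j (x - t_j) ^ b_j`, `t = pt s i k` the points of `S` in this coordinate. -/
def IsGd {p : ℕ} (s : Fin p → ℂ) (T : AV) : Prop :=
  IsLow T ∨ IsRl T ∨ IsSp T ∨
  (∃ (m : ℕ) (Z : T.V → T.V), IsPc T m Z ∧ 3 ≤ Module.finrank ℂ T.V ∧ Cmt T Z) ∨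
  ∃ (m : ℕ) (Z : T.V → T.V) (r : ℕ) (i : Fin (r + 1) → Fin p) (k : Option (Fin p))
    (b : Fin (r + 1) → ℕ), Function.Injective i ∧ (∀ l, k = some l → ∀ j, i j < l) ∧
    IsCv m (pt s i k) b ∧ IsNew T m Z (pt s i k) b

/-! ## The Lie algebras -/

/-- `X` is in the Lie algebra `u(H_1(T))` of the real endomorphisms of `H_1(T, ℝ) = T.V` which
commute with `Z` and are skew for `E`; its commutators span `su(H_1(T))`. -/
def IsLf (T : AV) (Z : T.V → T.V) (E : T.V → T.V → ℝ) (X : T.V → T.V) : Prop :=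
  IsR X ∧ (∀ v, X (Z v) = Z (X v)) ∧ ∀ u v, E (X u) v + E u (X v) = 0

/-- `X` kills `c`, acting as a derivation: `∑_i c(a_1, …, a_i ∘ X, …, a_m) = 0`. -/
def Kil {T : AV} {m : ℕ} (X : T.V → T.V) (c : Hlg T m) : Prop :=
  ∀ a a' : Fin m → F1 T, (∀ i v, ev (a' i) v = ev (a i) (X v)) →
    ∑ i, itg c (Function.update a i (a' i)) = 0

/-- A class of `T ≅ B × ∏_n J_(j n)` is killed by the commutators of the elements of
`∏_i u(H_1(J_i))`, acting diagonally (by `0` on `B`, by the component `j n` on the factor `n`). -/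
def SUK {B T : AV} {q N : ℕ} {J : Fin q → AV} {j : Fin N → Fin q} (Z : ∀ i, (J i).V → (J i).V)
    (E : ∀ i, (J i).V → (J i).V → ℝ) (f : T.V → B.V) (g : ∀ n, T.V → (J (j n)).V) {m : ℕ}
    (c : Hlg T m) : Prop :=
  ∀ P Q : ∀ i, (J i).V → (J i).V,
    (∀ i, IsLf (J i) (Z i) (E i) (P i) ∧ IsLf (J i) (Z i) (E i) (Q i)) →
    ∀ X : T.V → T.V, (∀ v, f (X v) = 0 ∧ ∀ n, g n (X v) =
      P (j n) (Q (j n) (g n v)) - Q (j n) (P (j n) (g n v))) → Kil X c

/-- THE THEOREM. -/
def Main : Prop :=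
  ∃ M : (p : ℕ) → Set (Fin p → ℂ), (∀ p, IsMeagre (M p)) ∧
  ∀ (p : ℕ) (s : Fin p → ℂ), s ∉ M p →
  ∀ (A B T : AV) (N' : ℕ) (G : Fin N' → AV) (f' : B.V → A.V) (g' : ∀ n, B.V → (G n).V),
    IsCM A → (∀ n, IsGd s (G n)) → IsIs f' g' →
    ∀ (q N : ℕ) (J : Fin q → AV) (j : Fin N → Fin q) (Z : ∀ i, (J i).V → (J i).V)
      (E : ∀ i, (J i).V → (J i).V → ℝ) (f : T.V → B.V) (g : ∀ n, T.V → (J (j n)).V),
      (∀ i, IsFc (J i) (Z i)) → (∀ i, IsPl (J i) (Z i) (E i)) → IsIs f g →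
      ∀ (d : ℕ) (c : Hlg T d), IsHdg c → SUK Z E f g c → AlgC T d c

end HC.CC
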