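import Pool.Agent.Lib.SE.CC.All
import Pool.Agent.Lib.SE.N.All

/-!
# The final theorem on cyclic covers: the assembly (helper45)
-/

set_option autoImplicit false

noncomputable section

namespace HC.CC

/-- **The final theorem.** -/
theorem main : Main := main_of SEN.finN

end HC.CC
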