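import Pool.Agent.Lib.SE.CC.Defs

/-!
# Hyperelliptic curves: odd exponents may be replaced by `1`
-/

set_option autoImplicit false

open MeasureTheory Topology

noncomputable section

namespace HC.CC

section

variable {r : ℕ} (s : Fin (r + 1) → ℂ) (b : Fin (r + 1) → ℕ)

/-- `∏_j (x - s_j) ^ [b_j / 2]`. -/
private def hh (x : ℂ) : ℂ := ∏ j, (x - s j) ^ (b j / 2)

private theorem hh_ne {x : ℂ} (hx : x ∉ Set.range s) : hh s b x ≠ 0 := by
  refine Finset.prod_ne_zero_iff.2 fun j _ => pow_ne_zero _ ?_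
  intro h
  exact hx ⟨j, (sub_eq_zero.1 h).symm⟩

private theorem pp_ne {x : ℂ} (hx : x ∉ Set.range s) : ∏ j, (x - s j) ≠ 0 := by
  refine Finset.prod_ne_zero_iff.2 fun j _ => ?_
  intro h
  exact hx ⟨j, (sub_eq_zero.1 h).symm⟩

private theorem hh_sq (hb : ∀ j, ¬ 2 ∣ b j) (x : ℂ) :
    ∏ j, (x - s j) ^ b j = hh s b x ^ 2 * ∏ j, (x - s j) := by
  rw [hh, ← Finset.prod_pow, ← Finset.prod_mul_distrib]
  refine Finset.prod_congr rfl fun j _ => ?_
  rw [← pow_mul, ← pow_succ]
  congr 1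
  have := hb j
  omega

private theorem hh_cont : Continuous (hh s b) := by
  unfold hh
  fun_prop

end

/-- The curve `y ^ 2 = ∏_j (x - s_j)` in place of `y ^ 2 = ∏_j (x - s_j) ^ b_j`, `b_j` odd. -/
theorem isNew_two {T : AV} {Z : T.V → T.V} {r : ℕ} {s : Fin (r + 1) → ℂ} {b : Fin (r + 1) → ℕ}
    (hb : ∀ j, ¬ 2 ∣ b j) (h : IsNew T 2 Z s b) : IsNew T 2 Z s fun _ => 1 := by
  obtain ⟨γ, hP, hS, hZ, hD⟩ := h.map
  refine ⟨h.cyc, h.dim, ?_⟩
  have key : ∀ x y : ℂ, γ.P (x, hh s b x * y) = hh s b x ^ 2 * (y ^ 2 - ∏ j, (x - s j)) := by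
    intro x y
    rw [hP, hh_sq s b hb]
    ring
  have key0 : ∀ x ∉ γ.S, ∀ y : ℂ, γ.P (x, hh s b x * y) = 0 ↔ y ^ 2 - ∏ j, (x - s j) = 0 := by
    intro x hx y
    rw [hS] at hx
    rw [key, mul_eq_zero, or_iff_right (pow_ne_zero 2 (hh_ne s b hx))]
  let γ' : Cur T :=
    { P := fun z => z.2 ^ 2 - ∏ j, (z.1 - s j)
      S := γ.S
      α := fun x y => γ.α x (hh s b x * y)
      ω := fun x y => γ.ω x (hh s b x * y)
      poly := by
        have h1 : (fun z : ℂ × ℂ => z.1) ∈
            Algebra.adjoin ℂ (Set.range fun (l : (ℂ × ℂ) →ₗ[ℂ] ℂ) (v : ℂ × ℂ) => l v) :=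
          Algebra.subset_adjoin ⟨LinearMap.fst ℂ ℂ ℂ, rfl⟩
        have h2 : (fun z : ℂ × ℂ => z.2) ∈
            Algebra.adjoin ℂ (Set.range fun (l : (ℂ × ℂ) →ₗ[ℂ] ℂ) (v : ℂ × ℂ) => l v) :=
          Algebra.subset_adjoin ⟨LinearMap.snd ℂ ℂ ℂ, rfl⟩
        have h3 : ∀ j, (fun z : ℂ × ℂ => z.1 - s j) ∈
            Algebra.adjoin ℂ (Set.range fun (l : (ℂ × ℂ) →ₗ[ℂ] ℂ) (v : ℂ × ℂ) => l v) :=
          fun j => sub_mem h1 (algebraMap_mem _ (s j))
        have h4 : (fun z : ℂ × ℂ => z.2) ^ 2 - ∏ j, (fun z : ℂ × ℂ => z.1 - s j) ∈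
            Algebra.adjoin ℂ (Set.range fun (l : (ℂ × ℂ) →ₗ[ℂ] ℂ) (v : ℂ × ℂ) => l v) :=
          sub_mem (pow_mem h2 2) (prod_mem fun j _ => h3 j)
        have h5 : (fun z : ℂ × ℂ => z.2 ^ 2 - ∏ j, (z.1 - s j)) =
            (fun z : ℂ × ℂ => z.2) ^ 2 - ∏ j, (fun z : ℂ × ℂ => z.1 - s j) := by
          funext z
          simp
        unfold IsPoly
        rw [h5]
        exact h4
      fin := γ.fin
      et := by
        intro x hx y hy
        have hx' : x ∉ Set.range s := by rwa [← hS]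
        have h1 : deriv (fun y : ℂ => y ^ 2 - ∏ j, (x - s j)) y = 2 * y := by
          rw [deriv_sub_const]
          simp
        change deriv (fun y : ℂ => y ^ 2 - ∏ j, (x - s j)) y ≠ 0
        rw [h1]
        intro h2
        have h3 : y = 0 := by simpa using h2
        subst h3
        have h4 : (0 : ℂ) ^ 2 - ∏ j, (x - s j) = 0 := hy
        exact pp_ne s hx' (by simpa using h4)
      map := by
        intro x₀ hx₀ y₀ hy₀
        have hx' : x₀ ∉ Set.range s := by rwa [← hS]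
        obtain ⟨η, g, h1, h2, h3⟩ := γ.map x₀ hx₀ (hh s b x₀ * y₀) ((key0 x₀ hx₀ y₀).2 hy₀)
        have hopen : ∀ᶠ x in 𝓝 x₀, x ∉ γ.S :=
          (γ.fin.isClosed.isOpen_compl).mem_nhds hx₀
        refine ⟨fun x => η x / hh s b x, g, ?_, ?_, ?_⟩
        · change η x₀ / hh s b x₀ = y₀
          rw [h1, mul_div_cancel_left₀ _ (hh_ne s b hx')]
        · exact h2.div (hh_cont s b).continuousAt (hh_ne s b hx')
        · filter_upwards [h3, hopen] with x hx hxS
          have hx1 : x ∉ Set.range s := by rwa [← hS]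
          have e : hh s b x * (η x / hh s b x) = η x := mul_div_cancel₀ _ (hh_ne s b hx1)
          obtain ⟨a1, a2, a3⟩ := hx
          refine ⟨(key0 x hxS _).1 (by rw [e]; exact a1), ?_, ?_⟩
          · rw [e]
            exact a2
          · rw [e]
            exact a3
      area := by
        refine γ.area.congr ?_
        have h0 : ∀ᵐ x : ℂ, x ∉ γ.S := by
          have : (volume : Measure ℂ) γ.S = 0 := γ.fin.measure_zero _
          exact measure_eq_zero_iff_ae_notMem.1 this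
        filter_upwards [h0] with x hx
        have hx1 : x ∉ Set.range s := by rwa [← hS]
        have hne := hh_ne s b hx1
        refine (finsum_mem_eq_of_bijOn (fun y : ℂ => hh s b x * y) ⟨?_, ?_, ?_⟩ ?_).symm
        · intro y hy
          exact (key0 x hx y).2 hy
        · intro y _ y' _ hyy
          exact mul_left_cancel₀ hne hyy
        · intro y hy
          refine ⟨y / hh s b x, ?_, mul_div_cancel₀ _ hne⟩
          refine (key0 x hx _).1 ?_
          rw [mul_div_cancel₀ _ hne]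
          exact hy
        · intro y _
          rfl }
  refine ⟨γ', fun x y => ?_, hS, fun x hx y hy => ?_, fun u hu huc i hi => ?_⟩
  · change y ^ 2 - ∏ j, (x - s j) = y ^ 2 - ∏ j, (x - s j) ^ 1
    simp
  · have h1 := hZ x hx (hh s b x * y) ((key0 x hx y).2 hy)
    change γ.ω x (hh s b x * (Complex.exp (2 * Real.pi * Complex.I / (2 : ℕ)) * y)) =
      Z (γ.ω x (hh s b x * y))
    rw [← h1]
    congr 1
    ring
  · have hu1 : u = 1 := by
      interval_cases u
      · norm_num at huc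
      · rfl
    subst hu1
    have e : ∀ j, (1 * b j) % 2 = (1 * 1) % 2 := fun j => by
      have := hb j
      omega
    obtain ⟨B, hB, hB'⟩ := hD 1 hu huc i (by
      rw [Finset.sum_congr rfl fun j _ => e j]
      exact hi)
    refine ⟨B, hB, fun x hx y hy => ?_⟩
    have hx1 : x ∉ Set.range s := by rwa [← hS]
    have hne := hh_ne s b hx1
    have hpe := pp_ne s hx1
    change B (γ.ω x (hh s b x * y)) = _
    rw [hB' x hx (hh s b x * y) ((key0 x hx y).2 hy)]
    have e1 : ∏ j, (x - s j) ^ (1 + 1 * b j / 2) = (∏ j, (x - s j)) * hh s b x := by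
      rw [hh, ← Finset.prod_mul_distrib]
      refine Finset.prod_congr rfl fun j _ => ?_
      rw [one_mul, pow_add, pow_one]
    have e2 : ∏ j, (x - s j) ^ (1 + 1 * 1 / 2) = ∏ j, (x - s j) := by
      refine Finset.prod_congr rfl fun j _ => ?_
      norm_num
    rw [e1, e2]
    field_simp

end HC.CC
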